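import Pool.Agent.U84.AWQ.Stm

/-!
# Project AWQ, package ZORN: exhaustion by central projections
-/

set_option autoImplicit false

namespace Pool.Agent.U618.AWQ

open Pool.Agent.R456.CL Pool.Agent.U84.AWQ

universe u

/-- the sets of orthogonal central projections of the exhaustion -/
def Good {A : Type u} [CStarAlgebra A] (z0 : A) (Φ : A → Prop) (K : Set A) : Prop :=
  (∀ w ∈ K, CP w ∧ w ≠ 0 ∧ w * z0 = w ∧ Φ w) ∧ ∀ w ∈ K, ∀ w' ∈ K, w ≠ w' → w * w' = 0

theorem good_chain {A : Type u} [CStarAlgebra A] {z0 : A} {Φ : A → Prop} (C : Set (Set A))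
    (hC : C ⊆ {K | Good z0 Φ K}) (hc : IsChain (· ⊆ ·) C) : Good z0 Φ (⋃₀ C) := by
  constructor
  · rintro w ⟨K, hK, hw⟩
    exact (hC hK).1 w hw
  · rintro w ⟨K, hK, hw⟩ w' ⟨K', hK', hw'⟩ hne
    rcases hc.total hK hK' with h | h
    · exact (hC hK').2 w (h hw) w' hw' hne
    · exact (hC hK).2 w hw w' (h hw') hne

theorem t_ZORN : S_ZORN.{u} := by
  intro A _ hSup z0 hz0 Φ H
  obtain ⟨K, hK⟩ := zorn_subset {K | Good z0 Φ K}
    (fun C hC hc => ⟨⋃₀ C, good_chain C hC hc, fun s hs => Set.subset_sUnion_of_mem hs⟩)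
  have hKg : Good z0 Φ K := hK.prop
  obtain ⟨E, hE⟩ := hSup K (fun i => i.1) (fun i => (hKg.1 i.1 i.2).1.1)
    (fun i j hij => hKg.2 i.1 i.2 j.1 j.2 (fun h => hij (Subtype.ext h)))
  obtain ⟨hE1, hE2, hE3⟩ := hE
  have hEE : E * E = E := hE1.isIdempotentElem
  have hEs : star E = E := hE1.isSelfAdjoint
  have hzz : z0 * z0 = z0 := hz0.1.isIdempotentElem
  have hzs : star z0 = z0 := hz0.1.isSelfAdjoint
  -- `w E = w = E w`
  have hwE : ∀ w ∈ K, w * E = w := fun w hw => hE2 ⟨w, hw⟩
  have hEw : ∀ w ∈ K, E * w = w := by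
    intro w hw
    rw [← (hKg.1 w hw).1.2 E, hwE w hw]
  have hzw : ∀ w ∈ K, z0 * w = w := by
    intro w hw
    rw [hz0.2 w, (hKg.1 w hw).2.2.1]
  have h1 : z0 * E = E := by
    have h2 : (1 - z0) * E = 0 := by
      apply hE3
      rintro ⟨w, hw⟩
      show (1 - z0) * w = 0
      rw [sub_mul, one_mul, hzw w hw, sub_self]
    rw [sub_mul, one_mul, sub_eq_zero] at h2
    exact h2.symm
  have h1' : E * z0 = E := by rw [← hz0.2 E, h1]
  -- `E` is central
  have h3 : ∀ x : A, x * E = E * x * E := by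
    intro x
    have h4 : ((1 - E) * x) * E = 0 := by
      apply hE3
      rintro ⟨w, hw⟩
      show ((1 - E) * x) * w = 0
      rw [mul_assoc, ← (hKg.1 w hw).1.2 x, ← mul_assoc, sub_mul, one_mul, hEw w hw, sub_self,
        zero_mul]
    rw [sub_mul, one_mul, sub_mul, sub_eq_zero] at h4
    exact h4
  have h5 : ∀ x : A, E * x = x * E := by
    intro x
    have h6 := congrArg star (h3 (star x))
    simp only [star_mul, star_star, hEs] at h6
    rw [h6, ← mul_assoc]
    exact (h3 x).symm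
  by_cases hEz : E = z0
  · refine ⟨K, fun i => i.1, fun i => (hKg.1 i.1 i.2).1, fun i => (hKg.1 i.1 i.2).2.2.2,
      fun i j hij => hKg.2 i.1 i.2 j.1 j.2 (fun h => hij (Subtype.ext h)),
      fun i => (hKg.1 i.1 i.2).2.2.1, ?_⟩
    rw [← hEz]
    exact ⟨hE1, hE2, hE3⟩
  · exfalso
    have hCP : CP (z0 - E) := by
      refine ⟨⟨?_, ?_⟩, fun x => ?_⟩
      · show (z0 - E) * (z0 - E) = z0 - E
        rw [sub_mul, mul_sub, mul_sub, hzz, h1, h1', hEE]
        abel
      · show star (z0 - E) = z0 - E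
        rw [star_sub, hzs, hEs]
      · rw [sub_mul, mul_sub, hz0.2 x, h5 x]
    have hne : z0 - E ≠ 0 := fun h => hEz (sub_eq_zero.1 h).symm
    have hz0' : (z0 - E) * z0 = z0 - E := by rw [sub_mul, hzz, h1']
    obtain ⟨z', c1, c2, c3, c4⟩ := H (z0 - E) hCP hne hz0'
    have hz'w : ∀ w ∈ K, z' * w = 0 := by
      intro w hw
      rw [← c3, mul_assoc, sub_mul, hzw w hw, hEw w hw, sub_self, mul_zero]
    have hz'z0 : z' * z0 = z' := by
      rw [← c3, mul_assoc, hz0']
    have hnot : z' ∉ K := by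
      intro hz'
      have h7 := hz'w z' hz'
      rw [c1.1.isIdempotentElem] at h7
      exact c2 h7
    have hgood : Good z0 Φ (insert z' K) := by
      constructor
      · intro w hw
        rcases Set.mem_insert_iff.1 hw with h | h
        · rw [h]
          exact ⟨c1, c2, hz'z0, c4⟩
        · exact hKg.1 w h
      · intro w hw w' hw' hww
        rcases Set.mem_insert_iff.1 hw with h | h
        · rcases Set.mem_insert_iff.1 hw' with h' | h'
          · exact absurd (h.trans h'.symm) hww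
          · rw [h]
            exact hz'w w' h'
        · rcases Set.mem_insert_iff.1 hw' with h' | h'
          · rw [h', ← c1.2 w]
            exact hz'w w h
          · exact hKg.2 w h w' h' hww
    exact hnot (hK.le_of_ge hgood (Set.subset_insert z' K) (Set.mem_insert z' K))

end Pool.Agent.U618.AWQ
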